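import Pool.Agent.Helper5.WD.Stmts

/-!
# Ratios for `W ⊆ W'` (row GRTI of the sheet WD)
-/

set_option autoImplicit false

open Finset Pool.Agent.Helper8.UN Pool.Agent.Helper5.FV

namespace Pool.Agent.Helper5.WD

theorem grti_core {n : ℕ} (hRAT : ST_GRAT) (E : Finset (Finset (Fin n)))
    (k D : ℕ) (hE : Two E) (hGD : GD E D (k - 1)) (hD : 1000 * D ≤ k) (hk : 10000 ≤ k)
    (hdiff : ∀ (W : Finset (Fin n)) (v : Fin n), v ∈ W →
      |hh E W k v - hh E W (k - 1) v| ≤ 1 / 1000) (W : Finset (Fin n)) :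
    ∀ (m : ℕ) (W' : Finset (Fin n)), W ⊆ W' → (W' \ W).card = m →
    (PP E W k : ℝ) * PP E W' (k - 1) ≤ (PP E W' k : ℝ) * PP E W (k - 1) ∧
    (PP E W' k : ℝ) * PP E W (k - 1) ≤
      Real.exp (2 * (m : ℝ) / k) * ((PP E W k : ℝ) * PP E W' (k - 1)) := by
  intro m
  induction m with
  | zero =>
    intro W' hW hc
    have hsub : W' ⊆ W := by
      rw [Finset.card_eq_zero, Finset.sdiff_eq_empty_iff_subset] at hc
      exact hc
    have he : W' = W := Finset.Subset.antisymm hsub hW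
    subst he
    simp
  | succ m ih =>
    intro W' hW hc
    have hne : (W' \ W).Nonempty := by
      rw [← Finset.card_pos]
      omega
    obtain ⟨v, hv⟩ := hne
    obtain ⟨hvW', hvW⟩ := Finset.mem_sdiff.1 hv
    have hW1 : W ⊆ W'.erase v := fun x hx =>
      Finset.mem_erase.2 ⟨fun h => hvW (h ▸ hx), hW hx⟩
    have hc1 : (W'.erase v \ W).card = m := by
      have : W'.erase v \ W = (W' \ W).erase v := by
        ext x
        simp only [Finset.mem_sdiff, Finset.mem_erase]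
        tauto
      rw [this, Finset.card_erase_of_mem hv, hc]
      omega
    obtain ⟨i1, i2⟩ := ih _ hW1 hc1
    obtain ⟨r1, r2, r3, _⟩ := hRAT n D (k - 1) k E W' v hE hGD (by omega) (by omega) hvW'
    obtain ⟨s1, s2, s3, _⟩ := hRAT n D (k - 1) (k - 1) E W' v hE hGD le_rfl (by omega) hvW'
    have hd := hdiff W' v hvW'
    rw [abs_le] at hd
    have hkr : ((k - 1 : ℕ) : ℝ) = (k : ℝ) - 1 := by
      rw [Nat.cast_sub (by omega)]
      simp
    rw [hkr] at s1
    have hk' : (10000 : ℝ) ≤ k := by exact_mod_cast hk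
    have hDr : (1000 : ℝ) * D ≤ k := by exact_mod_cast hD
    rw [r1, s1]
    generalize hh E W' k v = h1 at *
    generalize hh E W' (k - 1) v = h0 at *
    have ha : (0 : ℝ) ≤ PP E W k := Nat.cast_nonneg _
    have hb : (0 : ℝ) ≤ PP E W (k - 1) := Nat.cast_nonneg _
    have ha1 : (0 : ℝ) ≤ PP E (W'.erase v) k := Nat.cast_nonneg _
    have hb1 : (0 : ℝ) ≤ PP E (W'.erase v) (k - 1) := Nat.cast_nonneg _
    generalize (PP E W k : ℝ) = a at *
    generalize (PP E W (k - 1) : ℝ) = b at *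
    generalize (PP E (W'.erase v) k : ℝ) = a1 at *
    generalize (PP E (W'.erase v) (k - 1) : ℝ) = b1 at *
    have c0 : 0 ≤ (k : ℝ) - 1 - h0 := by linarith
    have c0' : (998 / 1000 : ℝ) * k ≤ (k : ℝ) - 1 - h0 := by linarith
    have c1 : (k : ℝ) - 1 - h0 ≤ (k : ℝ) - h1 := by linarith
    have c2 : (k : ℝ) - h1 ≤ ((k : ℝ) - 1 - h0) * Real.exp (2 / k) := by
      have hexp : 1 + 2 / (k : ℝ) ≤ Real.exp (2 / k) := by
        linarith [Real.add_one_le_exp (2 / (k : ℝ))]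
      have h3 : ((k : ℝ) - 1 - h0) * (1 + 2 / (k : ℝ)) ≤
          ((k : ℝ) - 1 - h0) * Real.exp (2 / k) := mul_le_mul_of_nonneg_left hexp c0
      refine le_trans ?_ h3
      have hkpos : (0 : ℝ) < k := by linarith
      have h4 : (998 / 1000 : ℝ) * 2 ≤ ((k : ℝ) - 1 - h0) * (2 / (k : ℝ)) := by
        rw [mul_div_assoc', le_div_iff₀ hkpos]
        linarith
      nlinarith
    constructor
    · calc a * (((k : ℝ) - 1 - h0) * b1) = ((k : ℝ) - 1 - h0) * (a * b1) := by ring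
        _ ≤ ((k : ℝ) - 1 - h0) * (a1 * b) := mul_le_mul_of_nonneg_left i1 c0
        _ ≤ ((k : ℝ) - h1) * (a1 * b) := mul_le_mul_of_nonneg_right c1 (mul_nonneg ha1 hb)
        _ = ((k : ℝ) - h1) * a1 * b := by ring
    · have hee : Real.exp (2 * ((m + 1 : ℕ) : ℝ) / k) =
          Real.exp (2 / k) * Real.exp (2 * (m : ℝ) / k) := by
        rw [← Real.exp_add]
        congr 1
        push_cast
        ring
      rw [hee]
      have hX : 0 ≤ Real.exp (2 * (m : ℝ) / k) * (a * b1) :=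
        mul_nonneg (Real.exp_pos _).le (mul_nonneg ha hb1)
      calc ((k : ℝ) - h1) * a1 * b = ((k : ℝ) - h1) * (a1 * b) := by ring
        _ ≤ ((k : ℝ) - h1) * (Real.exp (2 * (m : ℝ) / k) * (a * b1)) :=
            mul_le_mul_of_nonneg_left i2 (by linarith)
        _ ≤ (((k : ℝ) - 1 - h0) * Real.exp (2 / k)) *
              (Real.exp (2 * (m : ℝ) / k) * (a * b1)) := mul_le_mul_of_nonneg_right c2 hX
        _ = Real.exp (2 / k) * Real.exp (2 * (m : ℝ) / k) *
              (a * (((k : ℝ) - 1 - h0) * b1)) := by ring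

theorem st_GRTI (hRAT : ST_GRAT) (hHDF : ST_GHDF) (_hPOS : ST_GPOS) (hRGM : ST_GRGM) :
    ST_GRTI := by
  obtain ⟨n1, h1⟩ := hHDF
  obtain ⟨n2, h2⟩ := hRGM
  refine ⟨max n1 n2, ?_⟩
  intro n hn D0 r k E W W' hReg hk hW
  have hn1 : n1 ≤ n := le_trans (le_max_left _ _) hn
  have hn2 : n2 ≤ n := le_trans (le_max_right _ _) hn
  have hx : 0 ≤ (n : ℝ) / Real.log n :=
    div_nonneg (Nat.cast_nonneg _) (Real.log_natCast_nonneg n)
  obtain ⟨_, b2, _, b4, _, _, _⟩ := h2 n hn2 D0 r k E hReg (by linarith)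
  have hkr : ((k - 1 : ℕ) : ℝ) = (k : ℝ) - 1 := by
    rw [Nat.cast_sub (by omega)]
    simp
  have hk4 : (10000 : ℝ) ≤ k := by exact_mod_cast b4
  obtain ⟨_, _, _, _, _, c6, _⟩ := h2 n hn2 D0 r (k - 1) E hReg (by rw [hkr]; linarith)
  exact grti_core hRAT E k (D0 + 1) hReg.two c6 b2 b4
    (fun W v hv => h1 n hn1 D0 r k E W v hReg (by linarith) hv) W _ W' hW rfl

end Pool.Agent.Helper5.WD
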